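import Pool.Agent.Helper30.SY.St

/-!
# Project SY (MP_2d701a_co), module BAS: the average cone
-/

set_option autoImplicit false

namespace Pool.Agent.Helper99.SY

section gen

open Classical Finset Pool.Agent.Helper40.TI

variable {V : Type*} [Fintype V]

private theorem sum_cpos_le (s : V → V → ℤ)
    (h1 : ∀ u v, s u v = -1 ∨ s u v = 0 ∨ s u v = 1) (hsk : ∀ u v, s u v = - s v u) :
    ∑ a, ∑ b, ∑ c, cpos s a b c ≤
      3 * ∑ v, ((univ.filter (fun u => s v u = 1)).card : ℤ) *
        ((Fintype.card V : ℤ) - 1 - (univ.filter (fun u => s v u = 1)).card) := by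
  unfold cpos
  have h0 : ∀ v, s v v = 0 := by intro v; have := hsk v v; omega
  set G : V → V → V → ℤ := fun a b c => if a ≠ b ∧ b ≠ c ∧ c ≠ a then gg s a b c else 0 with hG
  have k1 : ∑ a, ∑ b, ∑ c, (if a ≠ b ∧ b ≠ c ∧ c ≠ a then max (curl s a b c) 0 else 0) ≤
      ∑ a, ∑ b, ∑ c, (G a b c + G b c a + G c a b) := by
    apply Finset.sum_le_sum; intro a _
    apply Finset.sum_le_sum; intro b _
    apply Finset.sum_le_sum; intro c _
    rw [hG]; beta_reduce
    by_cases h : a ≠ b ∧ b ≠ c ∧ c ≠ a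
    · have h' : b ≠ c ∧ c ≠ a ∧ a ≠ b := ⟨h.2.1, h.2.2, h.1⟩
      have h'' : c ≠ a ∧ a ≠ b ∧ b ≠ c := ⟨h.2.2, h.1, h.2.1⟩
      rw [if_pos h, if_pos h, if_pos h', if_pos h'']
      exact curl_le s h1 hsk a b c
    · have h' : ¬ (b ≠ c ∧ c ≠ a ∧ a ≠ b) := fun k => h ⟨k.2.2, k.1, k.2.1⟩
      have h'' : ¬ (c ≠ a ∧ a ≠ b ∧ b ≠ c) := fun k => h ⟨k.2.1, k.2.2, k.1⟩
      rw [if_neg h, if_neg h, if_neg h', if_neg h'']
      norm_num
  have k2 : ∑ a, ∑ b, ∑ c, (G a b c + G b c a + G c a b) = 3 * ∑ a, ∑ b, ∑ c, G a b c := by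
    simp only [Finset.sum_add_distrib]
    have r1 : ∑ a, ∑ b, ∑ c, G b c a = ∑ a, ∑ b, ∑ c, G a b c := by
      rw [Finset.sum_comm]
      apply Finset.sum_congr rfl; intro b _
      rw [Finset.sum_comm]
    have r2 : ∑ a, ∑ b, ∑ c, G c a b = ∑ a, ∑ b, ∑ c, G a b c := by
      have : ∀ a : V, ∑ b, ∑ c, G c a b = ∑ c, ∑ b, G c a b := fun a => Finset.sum_comm
      rw [Finset.sum_congr rfl (fun a _ => this a), Finset.sum_comm]
    rw [r1, r2]; ring
  rw [k2] at k1
  refine le_trans k1 (le_of_eq ?_)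
  congr 1
  exact Finset.sum_congr rfl fun v _ => sum_gg s h0 v

private theorem cpos_rot (s : V → V → ℤ) (a b c : V) : cpos s a b c = cpos s b c a := by
  unfold cpos curl
  have h : (a ≠ b ∧ b ≠ c ∧ c ≠ a) ↔ (b ≠ c ∧ c ≠ a ∧ a ≠ b) := by tauto
  by_cases h' : a ≠ b ∧ b ≠ c ∧ c ≠ a
  · rw [if_pos h', if_pos (h.1 h')]
    congr 1; ring
  · rw [if_neg h', if_neg (fun k => h' (h.2 k))]

private theorem cpos_nn (s : V → V → ℤ) (a b c : V) : 0 ≤ cpos s a b c := by
  unfold cpos
  split_ifs
  · exact le_max_right _ _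
  · exact le_refl _

private theorem cpos_le (s : V → V → ℤ) (a b c : V) (m : ℤ) (hm : 0 ≤ m)
    (h : s a b + s b c + s c a ≤ m) : cpos s a b c ≤ m := by
  unfold cpos curl
  split_ifs
  · exact max_le h hm
  · exact hm

private theorem cpos_ne (s : V → V → ℤ) (a b c : V) (h : cpos s a b c ≠ 0) :
    a ≠ b ∧ b ≠ c ∧ c ≠ a := by
  by_contra hc
  apply h
  unfold cpos
  rw [if_neg hc]

private theorem cpos_one (s : V → V → ℤ) (a b c : V) (h1 : a ≠ b ∧ b ≠ c ∧ c ≠ a)
    (h : s a b + s b c + s c a = 1) : cpos s a b c = 1 := by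
  unfold cpos curl
  rw [if_pos h1, h]; norm_num

end gen

open Finset Pool.Agent.Helper30.SY
open Pool.Agent.Helper40.TI (cpos curl_fill)

variable {n : ℕ}

private theorem degs (s : Fin n → Fin n → ℤ) (hs : Circ s) (a : Fin n) :
    (univ.filter fun u => s u a = 1).card = od s a ∧ 2 * od s a ≤ n := by
  have h1 : ∀ u, s a u = (if s a u = 1 then 1 else 0) - (if s u a = 1 then 1 else 0) := by
    intro u
    have hsk := hs.sk u a
    rcases hs.v1 a u with h | h | h <;> rw [hsk, h] <;> norm_num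
  have h2 := hs.row a
  rw [sum_congr rfl fun u _ => h1 u, sum_sub_distrib] at h2
  simp only [sum_boole] at h2
  have h3 : (univ.filter fun u => s u a = 1).card = od s a := by
    unfold od
    push_cast at h2
    omega
  refine ⟨h3, ?_⟩
  have h4 : Disjoint (univ.filter fun u => s a u = 1) (univ.filter fun u => s u a = 1) := by
    rw [disjoint_left]
    intro u hu hu'
    rw [mem_filter] at hu hu'
    have := hs.sk a u
    rw [hu.2, hu'.2] at this
    norm_num at this
  have h5 := card_union_of_disjoint h4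
  have h6 : ((univ.filter fun u => s a u = 1) ∪ (univ.filter fun u => s u a = 1)).card ≤ n :=
    le_trans (card_le_univ _) (by simp)
  rw [h5, h3] at h6
  unfold od at *
  omega

private theorem fl_eq (s : Fin n → Fin n → ℤ) (u v : Fin n) :
    fl (X0 s) u v = ((∑ w, cpos s u v w : ℤ) : ℝ) / n := by
  unfold fl X0
  have h : ∀ w, ((cpos s u v w : ℝ) / (3 * n) + (cpos s w u v : ℝ) / (3 * n) +
      (cpos s v w u : ℝ) / (3 * n)) = (cpos s u v w : ℝ) / n := by
    intro w
    rw [cpos_rot s w u v, cpos_rot s v w u, cpos_rot s w u v]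
    by_cases hn : (n : ℝ) = 0
    · rw [hn]; simp
    · field_simp; ring
  rw [sum_congr rfl fun w _ => h w, ← sum_div]
  push_cast
  rfl

private theorem fl_le (s : Fin n → Fin n → ℤ) (hn : 1 ≤ n) (u v : Fin n)
    (h : ∑ w, cpos s u v w ≤ n) : fl (X0 s) u v ≤ 1 := by
  rw [fl_eq]
  have hn0 : (0 : ℝ) < n := by exact_mod_cast hn
  rw [div_le_one hn0]
  exact_mod_cast h

theorem hBAS : StBAS := by
  intro n s hn hs
  have hn0 : (0 : ℝ) < n := by exact_mod_cast hn
  have h00 : ∀ a, s a a = 0 := by intro a; have := hs.sk a a; omega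
  have hle : ∀ a b, s a b ≤ 1 := by
    intro a b; rcases hs.v1 a b with h | h | h <;> rw [h] <;> norm_num
  haveI : Nonempty (Fin n) := ⟨⟨0, hn⟩⟩
  refine ⟨?_, ?_, ?_, ?_, ?_, ?_, ?_⟩
  · intro a b c
    unfold X0
    have := cpos_nn s a b c
    have h : (0 : ℝ) ≤ cpos s a b c := by exact_mod_cast this
    positivity
  · intro a b c
    unfold X0
    have h1 : cpos s a b c ≤ 3 := cpos_le s a b c 3 (by norm_num) (by
      have := hle a b; have := hle b c; have := hle c a; linarith)
    have h : (cpos s a b c : ℝ) ≤ 3 := by exact_mod_cast h1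
    rw [div_le_div_iff₀ (by positivity) hn0]
    nlinarith
  · intro a b c h
    apply cpos_ne s a b c
    intro h0
    apply h
    unfold X0
    rw [h0]; simp
  · intro u v huv
    have := curl_fill s hs.sk hs.row (X0 s) (fun a b c => by
      unfold X0; rw [Fintype.card_fin]) u v huv
    unfold fl
    linarith
  · intro u v
    have key : ∀ u v, s u v = -1 → fl (X0 s) u v ≤ 1 := by
      intro u v h
      apply fl_le s hn
      calc ∑ w, cpos s u v w ≤ ∑ _w : Fin n, (1 : ℤ) := sum_le_sum fun w _ =>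
            cpos_le s u v w 1 (by norm_num) (by
              have := hle v w; have := hle w u; rw [h]; linarith)
        _ = n := by simp
    rcases hs.v1 u v with h | h | h
    · exact Or.inl (key u v h)
    · left
      apply fl_le s hn
      have h1 : ∀ w, cpos s u v w ≤ (if s v w = 1 then 1 else 0) + (if s w u = 1 then 1 else 0) := by
        intro w
        apply cpos_le
        · split_ifs <;> norm_num
        · rw [h]
          rcases hs.v1 v w with h2 | h2 | h2 <;> rcases hs.v1 w u with h3 | h3 | h3 <;>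
            rw [h2, h3] <;> norm_num
      have h2 : ∑ w, cpos s u v w ≤ (od s v : ℤ) + od s u := by
        calc _ ≤ ∑ w, ((if s v w = 1 then (1 : ℤ) else 0) + (if s w u = 1 then 1 else 0)) :=
              sum_le_sum fun w _ => h1 w
          _ = _ := by
            rw [sum_add_distrib]
            simp only [sum_boole]
            rw [(degs s hs u).1]
            rfl
      have h3 := (degs s hs u).2
      have h4 := (degs s hs v).2
      omega
    · right
      apply key
      rw [hs.sk, h]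
  · intro a b c h1 h2 h3
    have hd : a ≠ b ∧ b ≠ c ∧ c ≠ a := by
      refine ⟨?_, ?_, ?_⟩
      · rintro rfl; rw [h00] at h1; norm_num at h1
      · rintro rfl; rw [h00] at h2; norm_num at h2
      · rintro rfl; rw [h00] at h3; norm_num at h3
    unfold X0
    rw [cpos_one s a b c hd (by rw [h1, h2, hs.sk c a, h3]; norm_num)]
    push_cast
    rfl
  · have h1 := sum_cpos_le s hs.v1 hs.sk
    rw [Fintype.card_fin] at h1
    have h2 : ∑ a, ∑ b, ∑ c, X0 s a b c =
        ((∑ a, ∑ b, ∑ c, cpos s a b c : ℤ) : ℝ) / (3 * n) := by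
      unfold X0
      push_cast
      rw [sum_div]
      refine sum_congr rfl fun a _ => ?_
      rw [sum_div]
      refine sum_congr rfl fun b _ => ?_
      rw [sum_div]
    rw [h2, div_le_div_iff₀ (by positivity) hn0]
    have h3 : ((∑ a, ∑ b, ∑ c, cpos s a b c : ℤ) : ℝ) ≤
        3 * ∑ v, (od s v : ℝ) * ((n : ℝ) - 1 - od s v) := by
      have h4 : ((3 * ∑ v, ((univ.filter (fun u => s v u = 1)).card : ℤ) *
        ((n : ℤ) - 1 - (univ.filter (fun u => s v u = 1)).card) : ℤ) : ℝ) =
        3 * ∑ v, (od s v : ℝ) * ((n : ℝ) - 1 - od s v) := by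
        push_cast
        rfl
      rw [← h4]
      exact_mod_cast h1
    nlinarith
end Pool.Agent.Helper99.SY
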