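import Pool.Agent.Helper30.SY.St2

/-!
# Project SY (MP_2d701a_co), module HLF: the half graph
-/

set_option autoImplicit false

namespace Pool.Agent.Helper99.SY

open Finset Pool.Agent.Helper30.SY

variable {n : ℕ}

/-- number of missing pairs at `a` -/
private def ma (s : Fin n → Fin n → ℤ) (a : Fin n) : ℕ :=
  (univ.filter fun u => a ≠ u ∧ s a u = 0).card

private theorem sum_ma (s : Fin n → Fin n → ℤ) : ∑ a, ma s a = mis s := by
  unfold ma mis
  simp only [card_filter]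
  rw [Fintype.sum_prod_type]

private theorem deg (s : Fin n → Fin n → ℤ) (hs : Circ s) (a : Fin n) :
    2 * (univ.filter fun u => s a u = 1).card + ma s a + 1 = n := by
  have h0 : s a a = 0 := by have := hs.sk a a; omega
  have h1 : ∀ u, (1 : ℤ) = 2 * (if s a u = 1 then 1 else 0) - s a u +
      ((if a ≠ u ∧ s a u = 0 then 1 else 0) + (if u = a then 1 else 0)) := by
    intro u
    by_cases hu : u = a
    · subst hu; simp [h0]
    · have hu' : a ≠ u := Ne.symm hu
      rcases hs.v1 a u with h | h | h <;> simp [h, hu, hu']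
  have h2 : (∑ u : Fin n, (1 : ℤ)) = _ := sum_congr rfl fun u _ => h1 u
  rw [sum_add_distrib, sum_sub_distrib, ← mul_sum, hs.row a, sum_add_distrib] at h2
  simp only [sum_boole, sum_const, card_univ, Fintype.card_fin, nsmul_eq_mul, mul_one,
    sub_zero] at h2
  unfold ma
  have h3 : (univ.filter fun u : Fin n => u = a).card = 1 := by
    rw [filter_eq']; simp
  rw [h3] at h2
  zify
  push_cast at h2
  linarith

/-- inversions -/
private def inv (s : Fin n → Fin n → ℤ) (Q : Finset (Fin n)) (ρ : Fin n → ℕ) (a : Fin n) : ℕ :=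
  (((Q.filter fun w => s a w = 1) ×ˢ (Q.filter fun u => s u a = 1)).filter
    fun p => ρ p.2 < ρ p.1).card

private def Wa (s : Fin n → Fin n → ℤ) (v a : Fin n) : ℕ :=
  (univ.filter fun p : Fin n × Fin n => WT s p.1 v a p.2).card

private theorem sum_Wa (s : Fin n → Fin n → ℤ) (v : Fin n) : ∑ a, Wa s v a = wv s v := by
  unfold Wa wv
  simp only [card_filter, Fintype.sum_prod_type]
  rw [sum_comm]

private theorem inv_le (s : Fin n → Fin n → ℤ) (v a : Fin n) (ρ : Fin n → ℕ)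
    (ha : a ∈ ON s v) : inv s (IN s v) ρ a ≤ Wa s v a + bw s (IN s v) ρ := by
  unfold inv Wa bw
  refine le_trans (card_le_card_of_injOn
    (t := (univ.filter fun p : Fin n × Fin n => WT s p.1 v a p.2) ∪
      ((IN s v ×ˢ IN s v).filter fun p => ρ p.1 < ρ p.2 ∧ s p.1 p.2 ≠ 1))
    Prod.swap ?_ ?_) (card_union_le _ _)
  · intro p hp
    obtain ⟨w, u⟩ := p
    rw [mem_coe, mem_filter, mem_product, mem_filter, mem_filter] at hp
    obtain ⟨⟨⟨hw, haw⟩, hu, hua⟩, hr⟩ := hp
    rw [mem_coe, mem_union, mem_filter, mem_filter, mem_product]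
    simp only [Prod.swap_prod_mk, Prod.fst_swap, Prod.snd_swap] at *
    by_cases h : s u w = 1
    · left
      unfold ON at ha
      unfold IN at hw hu
      rw [mem_filter] at ha hw hu
      exact ⟨mem_univ _, hu.2, hua, h, ha.2, haw, hw.2⟩
    · right
      exact ⟨⟨hu, hw⟩, hr, h⟩
  · exact Prod.swap_injective.injOn

private theorem rk_lt (Q : Finset (Fin n)) (ρ : Fin n → ℕ) (x y : Fin n) (hx : x ∈ Q)
    (h : ρ x < ρ y) : rk Q ρ x < rk Q ρ y := by
  unfold rk
  apply card_lt_card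
  rw [ssubset_iff_of_subset]
  · exact ⟨x, mem_filter.2 ⟨hx, h⟩, fun hc => lt_irrefl _ (mem_filter.1 hc).2⟩
  · intro z hz
    rw [mem_filter] at hz ⊢
    exact ⟨hz.1, hz.2.trans h⟩

private theorem rk_inj (Q : Finset (Fin n)) (ρ : Fin n → ℕ)
    (hρ : ∀ x ∈ Q, ∀ y ∈ Q, ρ x = ρ y → x = y) (x y : Fin n) (hx : x ∈ Q) (hy : y ∈ Q)
    (h : rk Q ρ x = rk Q ρ y) : x = y := by
  rcases lt_trichotomy (ρ x) (ρ y) with h1 | h1 | h1
  · have := rk_lt Q ρ x y hx h1; omega
  · exact hρ x hx y hy h1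
  · have := rk_lt Q ρ y x hy h1; omega

private theorem cntI (Q : Finset (Fin n)) (ρ : Fin n → ℕ)
    (hρ : ∀ x ∈ Q, ∀ y ∈ Q, ρ x = ρ y → x = y) (x y : ℝ) :
    ((Q.filter fun u => x ≤ (rk Q ρ u : ℝ) ∧ (rk Q ρ u : ℝ) ≤ y).card : ℝ) ≤ |y - x| + 1 := by
  have h1 : (Q.filter fun u => x ≤ (rk Q ρ u : ℝ) ∧ (rk Q ρ u : ℝ) ≤ y).card ≤
      (Icc ⌈x⌉ ⌊y⌋).card := by
    refine card_le_card_of_injOn (fun u => (rk Q ρ u : ℤ)) ?_ ?_
    · intro u hu
      rw [mem_coe, mem_filter] at hu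
      rw [mem_coe, mem_Icc]
      refine ⟨Int.ceil_le.2 ?_, Int.le_floor.2 ?_⟩
      · exact_mod_cast hu.2.1
      · exact_mod_cast hu.2.2
    · intro u hu w hw h
      rw [mem_coe, mem_filter] at hu hw
      have h' : ((rk Q ρ u : ℕ) : ℤ) = ((rk Q ρ w : ℕ) : ℤ) := h
      exact rk_inj Q ρ hρ u w hu.1 hw.1 (by exact_mod_cast h')
  rw [Int.card_Icc] at h1
  have h2 : (((⌊y⌋ + 1 - ⌈x⌉).toNat : ℕ) : ℝ) ≤ |y - x| + 1 := by
    rcases le_total 0 (⌊y⌋ + 1 - ⌈x⌉) with h | h
    · have h3 : (((⌊y⌋ + 1 - ⌈x⌉).toNat : ℤ) : ℝ) = ((⌊y⌋ + 1 - ⌈x⌉ : ℤ) : ℝ) := by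
        rw [Int.toNat_of_nonneg h]
      have h4 : (((⌊y⌋ + 1 - ⌈x⌉).toNat : ℕ) : ℝ) = (⌊y⌋ : ℝ) + 1 - ⌈x⌉ := by
        have : (((⌊y⌋ + 1 - ⌈x⌉).toNat : ℕ) : ℝ) = (((⌊y⌋ + 1 - ⌈x⌉).toNat : ℤ) : ℝ) := by
          norm_cast
        rw [this, h3]; push_cast; ring
      rw [h4]
      have h5 := Int.floor_le y
      have h6 := Int.le_ceil x
      have h7 := le_abs_self (y - x)
      linarith
    · rw [Int.toNat_of_nonpos h]
      have := abs_nonneg (y - x)
      push_cast
      linarith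
  exact le_trans (by exact_mod_cast h1) h2

/-- backward pairs at `a` -/
private def b1 (s : Fin n → Fin n → ℤ) (P : Finset (Fin n)) (ρ : Fin n → ℕ) (a : Fin n) : ℕ :=
  (P.filter fun b => ρ a < ρ b ∧ s a b ≠ 1).card

private def b2 (s : Fin n → Fin n → ℤ) (P : Finset (Fin n)) (ρ : Fin n → ℕ) (a : Fin n) : ℕ :=
  (P.filter fun b => ρ b < ρ a ∧ s b a ≠ 1).card

private theorem sum_b1 (s : Fin n → Fin n → ℤ) (P : Finset (Fin n)) (ρ : Fin n → ℕ) :
    ∑ a ∈ P, b1 s P ρ a = bw s P ρ := by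
  unfold b1 bw
  simp only [card_filter]
  rw [sum_product]

private theorem sum_b2 (s : Fin n → Fin n → ℤ) (P : Finset (Fin n)) (ρ : Fin n → ℕ) :
    ∑ a ∈ P, b2 s P ρ a = bw s P ρ := by
  unfold b2 bw
  simp only [card_filter]
  rw [sum_product, sum_comm]

private theorem thr (s : Fin n → Fin n → ℤ) (hs : Circ s) (P Q : Finset (Fin n))
    (hPQ : Disjoint P Q) (ρ : Fin n → ℕ) (hρ : ∀ x ∈ P, ∀ y ∈ P, ρ x = ρ y → x = y) (κ : ℝ)
    (hκ : (n : ℝ) - 1 ≤ P.card + Q.card + κ * n) (a : Fin n) (ha : a ∈ P) :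
    |((n : ℝ) / 2 - P.card + rk P ρ a) - ((Q.filter fun w => s a w = 1).card : ℝ)| ≤
      ma s a + b1 s P ρ a + b2 s P ρ a + (κ * n + 2) := by
  have hd := deg s hs a
  have hsaa : s a a = 0 := by have := hs.sk a a; omega
  set od := (univ.filter fun u => s a u = 1).card with hod
  set f := (P.filter fun u => s a u = 1).card with hf
  set S := (Q.filter fun w => s a w = 1).card with hS
  set g := (P.filter fun b => ρ a < ρ b).card with hg
  -- split of the degree
  have e1 : f + S ≤ od := by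
    rw [hf, hS, hod, ← card_union_of_disjoint]
    · apply card_le_card
      intro u hu
      rw [mem_union, mem_filter, mem_filter] at hu
      rw [mem_filter]
      exact ⟨mem_univ _, hu.elim (fun h => h.2) fun h => h.2⟩
    · exact disjoint_filter_filter hPQ
  have e2 : od + (P.card + Q.card) ≤ f + S + n := by
    have h1 : od ≤ f + S + ((P ∪ Q)ᶜ).card := by
      have : (univ.filter fun u => s a u = 1) ⊆
          ((P.filter fun u => s a u = 1) ∪ (Q.filter fun w => s a w = 1)) ∪ (P ∪ Q)ᶜ := by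
        intro u hu
        rw [mem_filter] at hu
        rw [mem_union, mem_union, mem_filter, mem_filter, mem_compl, mem_union]
        tauto
      calc od ≤ _ := card_le_card this
        _ ≤ _ := card_union_le _ _
        _ ≤ _ := Nat.add_le_add_right (card_union_le _ _) _
    have h2 : ((P ∪ Q)ᶜ).card + (P.card + Q.card) = n := by
      rw [← card_union_of_disjoint hPQ, card_compl_add_card, Fintype.card_fin]
    omega
  -- the order
  have e3 : f ≤ g + b2 s P ρ a := by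
    have : (P.filter fun u => s a u = 1) ⊆ (P.filter fun b => ρ a < ρ b) ∪
        (P.filter fun b => ρ b < ρ a ∧ s b a ≠ 1) := by
      intro u hu
      rw [mem_filter] at hu
      rw [mem_union, mem_filter, mem_filter]
      rcases lt_trichotomy (ρ a) (ρ u) with h | h | h
      · exact Or.inl ⟨hu.1, h⟩
      · have := hρ a ha u hu.1 h
        rw [← this, hsaa] at hu
        exact absurd hu.2 (by norm_num)
      · refine Or.inr ⟨hu.1, h, ?_⟩
        have := hs.sk u a
        rw [hu.2] at this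
        rw [this]; norm_num
    exact le_trans (card_le_card this) (card_union_le _ _)
  have e4 : g ≤ f + b1 s P ρ a := by
    have : (P.filter fun b => ρ a < ρ b) ⊆ (P.filter fun u => s a u = 1) ∪
        (P.filter fun b => ρ a < ρ b ∧ s a b ≠ 1) := by
      intro u hu
      rw [mem_filter] at hu
      rw [mem_union, mem_filter, mem_filter]
      by_cases h : s a u = 1
      · exact Or.inl ⟨hu.1, h⟩
      · exact Or.inr ⟨hu.1, hu.2, h⟩
    exact le_trans (card_le_card this) (card_union_le _ _)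
  have e5 : g + rk P ρ a + 1 = P.card := by
    have h1 : P = ((P.filter fun b => ρ a < ρ b) ∪ (P.filter fun b => ρ b < ρ a)) ∪ {a} := by
      ext u
      rw [mem_union, mem_union, mem_filter, mem_filter, mem_singleton]
      constructor
      · intro hu
        rcases lt_trichotomy (ρ a) (ρ u) with h | h | h
        · exact Or.inl (Or.inl ⟨hu, h⟩)
        · exact Or.inr (hρ a ha u hu h).symm
        · exact Or.inl (Or.inr ⟨hu, h⟩)
      · rintro ((h | h) | h)
        · exact h.1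
        · exact h.1
        · rw [h]; exact ha
    have h2 : P.card = (g + rk P ρ a) + 1 := by
      conv_lhs => rw [h1]
      rw [card_union_of_disjoint, card_union_of_disjoint, card_singleton]
      · rfl
      · rw [disjoint_left]
        intro u hu hu'
        rw [mem_filter] at hu hu'
        exact lt_asymm hu.2 hu'.2
      · rw [disjoint_singleton_right, mem_union, mem_filter, mem_filter]
        rintro (h | h) <;> exact lt_irrefl _ h.2
    omega
  have r0 : 2 * (od : ℝ) + ma s a + 1 = n := by exact_mod_cast hd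
  have r1 : (f : ℝ) + S ≤ od := by exact_mod_cast e1
  have r2 : (od : ℝ) + (P.card + Q.card) ≤ f + S + n := by exact_mod_cast e2
  have r3 : (f : ℝ) ≤ g + b2 s P ρ a := by exact_mod_cast e3
  have r4 : (g : ℝ) ≤ f + b1 s P ρ a := by exact_mod_cast e4
  have r5 : (g : ℝ) + rk P ρ a + 1 = P.card := by exact_mod_cast e5
  have n1 : (0 : ℝ) ≤ ma s a := Nat.cast_nonneg _
  have n2 : (0 : ℝ) ≤ b1 s P ρ a := Nat.cast_nonneg _
  have n3 : (0 : ℝ) ≤ b2 s P ρ a := Nat.cast_nonneg _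
  have n4 : -1 ≤ κ * (n : ℝ) := by
    have h1 : P.card + Q.card ≤ n := by
      rw [← card_union_of_disjoint hPQ]
      exact le_trans (card_le_univ _) (by simp)
    have h2 : (P.card : ℝ) + Q.card ≤ n := by exact_mod_cast h1
    linarith
  rw [abs_le]
  constructor <;> linarith

/-- the bound at `a` -/
private theorem bnd (hI : StINV) (s : Fin n → Fin n → ℤ) (hs : Circ s) (P Q : Finset (Fin n))
    (hPQ : Disjoint P Q) (ρ ρQ : Fin n → ℕ) (hρ : ∀ x ∈ P, ∀ y ∈ P, ρ x = ρ y → x = y)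
    (hρQ : ∀ x ∈ Q, ∀ y ∈ Q, ρQ x = ρQ y → x = y) (κ : ℝ)
    (hκ : (n : ℝ) - 1 ≤ P.card + Q.card + κ * n) (a : Fin n) (ha : a ∈ P) (T : Finset (Fin n))
    (hT : ∀ u ∈ T, u ∈ Q ∧ (¬ (s a u = 1 ↔
        2 * (P.card + rk Q ρQ u) < n + 2 * rk P ρ a) ∨ ¬ (s u a = 1 ↔
        n + 2 * rk P ρ a < 2 * (P.card + rk Q ρQ u)))) :
    (T.card : ℝ) ≤ 2 * Real.sqrt (inv s Q ρQ a) + 3 * ma s a +
      2 * (ma s a + b1 s P ρ a + b2 s P ρ a + (κ * n + 2) + 1) := by
  set S := Q.filter fun w => s a w = 1 with hS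
  set S' := Q.filter fun u => s u a = 1 with hS'
  set Z := Q.filter fun u => s a u = 0 with hZ
  set h : ℝ := (n : ℝ) / 2 - P.card + rk P ρ a with hh
  have hdS : Disjoint S S' := by
    rw [disjoint_left]
    intro u hu hu'
    rw [hS, mem_filter] at hu
    rw [hS', mem_filter] at hu'
    have := hs.sk a u
    rw [hu.2, hu'.2] at this
    norm_num at this
  obtain ⟨i1, i2⟩ := hI n Q S S' ρQ (filter_subset _ _) (filter_subset _ _) hdS hρQ
  have hthr := thr s hs P Q hPQ ρ hρ κ hκ a ha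
  have hc : Q.card = S.card + S'.card + Z.card := by
    have h1 : Q = (S ∪ S') ∪ Z := by
      ext u
      rw [mem_union, mem_union, hS, hS', hZ, mem_filter, mem_filter, mem_filter]
      constructor
      · intro hu
        rcases hs.v1 a u with h | h | h
        · left; right
          refine ⟨hu, ?_⟩
          have := hs.sk u a
          rw [this, h]; norm_num
        · right; exact ⟨hu, h⟩
        · left; left; exact ⟨hu, h⟩
      · rintro ((h | h) | h) <;> exact h.1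
    conv_lhs => rw [h1]
    rw [card_union_of_disjoint, card_union_of_disjoint hdS]
    rw [disjoint_left]
    intro u hu hu'
    rw [hZ, mem_filter] at hu'
    rw [mem_union, hS, hS', mem_filter, mem_filter] at hu
    rcases hu with h | h
    · rw [hu'.2] at h; exact absurd h.2 (by norm_num)
    · have := hs.sk a u
      rw [h.2, hu'.2] at this
      norm_num at this
  have hZm : Z.card ≤ ma s a := by
    apply card_le_card
    intro u hu
    rw [hZ, mem_filter] at hu
    rw [mem_filter]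
    refine ⟨mem_univ _, ?_, hu.2⟩
    rintro rfl
    exact disjoint_left.1 hPQ ha hu.1
  have c1 := cntI Q ρQ hρQ (S.card : ℝ) h
  have c2 := cntI Q ρQ hρQ h (S.card : ℝ)
  rw [abs_sub_comm] at c2
  have hsub : T ⊆ ((((S.filter fun w => S.card ≤ rk Q ρQ w) ∪
      (S'.filter fun u => rk Q ρQ u < S.card)) ∪ Z) ∪
      (Q.filter fun u => (S.card : ℝ) ≤ (rk Q ρQ u : ℝ) ∧ (rk Q ρQ u : ℝ) ≤ h)) ∪
      (Q.filter fun u => h ≤ (rk Q ρQ u : ℝ) ∧ (rk Q ρQ u : ℝ) ≤ (S.card : ℝ)) := by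
    intro u hu
    obtain ⟨huQ, hbad⟩ := hT u hu
    have k1 : (2 * (P.card + rk Q ρQ u) < n + 2 * rk P ρ a) ↔ (rk Q ρQ u : ℝ) < h := by
      rw [hh]
      constructor
      · intro h1
        have : (2 : ℝ) * (P.card + rk Q ρQ u) < n + 2 * rk P ρ a := by exact_mod_cast h1
        linarith
      · intro h1
        have : (2 : ℝ) * (P.card + rk Q ρQ u) < n + 2 * rk P ρ a := by linarith
        exact_mod_cast this
    have k2 : (n + 2 * rk P ρ a < 2 * (P.card + rk Q ρQ u)) ↔ h < (rk Q ρQ u : ℝ) := by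
      rw [hh]
      constructor
      · intro h1
        have : (n : ℝ) + 2 * rk P ρ a < 2 * (P.card + rk Q ρQ u) := by exact_mod_cast h1
        linarith
      · intro h1
        have : (n : ℝ) + 2 * rk P ρ a < 2 * (P.card + rk Q ρQ u) := by linarith
        exact_mod_cast this
    rw [k1, k2] at hbad
    have mS : ∀ x, x ∈ S ↔ x ∈ Q ∧ s a x = 1 := fun x => by rw [hS, mem_filter]
    have mS' : ∀ x, x ∈ S' ↔ x ∈ Q ∧ s x a = 1 := fun x => by rw [hS', mem_filter]
    have mZ : ∀ x, x ∈ Z ↔ x ∈ Q ∧ s a x = 0 := fun x => by rw [hZ, mem_filter]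
    simp only [mem_union, mem_filter, mS, mS', mZ]
    have hsk := hs.sk u a
    rcases hs.v1 a u with h1 | h1 | h1
    · -- u in S'
      have h2 : s u a = 1 := by rw [hsk, h1]; norm_num
      rcases lt_or_ge (rk Q ρQ u) S.card with h3 | h3
      · left; left; left; right; exact ⟨⟨huQ, h2⟩, h3⟩
      · left; right
        refine ⟨huQ, by exact_mod_cast h3, ?_⟩
        rcases hbad with hb | hb
        · by_contra hc'
          apply hb
          rw [h1]
          constructor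
          · intro h4; norm_num at h4
          · intro h4; exact absurd h4.le hc'
        · by_contra hc'
          apply hb
          exact ⟨fun _ => not_le.1 hc', fun _ => h2⟩
    · left; left; right; exact ⟨huQ, h1⟩
    · have h2 : s u a = -1 := by rw [hsk, h1]
      rcases lt_or_ge (rk Q ρQ u) S.card with h3 | h3
      · right
        refine ⟨huQ, ?_, by exact_mod_cast h3.le⟩
        rcases hbad with hb | hb
        · by_contra hc'
          apply hb
          exact ⟨fun _ => not_le.1 hc', fun _ => h1⟩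
        · by_contra hc'
          apply hb
          rw [h2]
          constructor
          · intro h4; norm_num at h4
          · intro h4; exact absurd h4.le hc'
      · left; left; left; left; exact ⟨⟨huQ, h1⟩, h3⟩
  have hcard : T.card ≤ (S.filter fun w => S.card ≤ rk Q ρQ w).card +
      (S'.filter fun u => rk Q ρQ u < S.card).card + Z.card +
      (Q.filter fun u => (S.card : ℝ) ≤ (rk Q ρQ u : ℝ) ∧ (rk Q ρQ u : ℝ) ≤ h).card +
      (Q.filter fun u => h ≤ (rk Q ρQ u : ℝ) ∧ (rk Q ρQ u : ℝ) ≤ (S.card : ℝ)).card := by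
    refine le_trans (card_le_card hsub) ?_
    refine le_trans (card_union_le _ _) (Nat.add_le_add_right ?_ _)
    refine le_trans (card_union_le _ _) (Nat.add_le_add_right ?_ _)
    refine le_trans (card_union_le _ _) (Nat.add_le_add_right ?_ _)
    exact card_union_le _ _
  have hcard' : (T.card : ℝ) ≤ ((S.filter fun w => S.card ≤ rk Q ρQ w).card : ℝ) +
      ((S'.filter fun u => rk Q ρQ u < S.card).card : ℝ) + (Z.card : ℝ) +
      ((Q.filter fun u => (S.card : ℝ) ≤ (rk Q ρQ u : ℝ) ∧ (rk Q ρQ u : ℝ) ≤ h).card : ℝ) +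
      ((Q.filter fun u => h ≤ (rk Q ρQ u : ℝ) ∧ (rk Q ρQ u : ℝ) ≤ (S.card : ℝ)).card : ℝ) := by
    exact_mod_cast hcard
  have hcR : (Q.card : ℝ) = S.card + S'.card + Z.card := by exact_mod_cast hc
  have hZR : (Z.card : ℝ) ≤ ma s a := by exact_mod_cast hZm
  have hinv : (((S ×ˢ S').filter fun p => ρQ p.2 < ρQ p.1).card : ℝ) = (inv s Q ρQ a : ℝ) := rfl
  rw [hinv] at i1 i2
  linarith

private theorem amgm (x t : ℝ) (hx : 0 ≤ x) (ht : 0 < t) :
    Real.sqrt x ≤ x / (2 * t) + t / 2 := by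
  have h1 := Real.sq_sqrt hx
  have h2 : x / (2 * t) + t / 2 - Real.sqrt x = (Real.sqrt x - t) ^ 2 / (2 * t) := by
    field_simp
    nlinarith
  have h3 : 0 ≤ (Real.sqrt x - t) ^ 2 / (2 * t) := div_nonneg (sq_nonneg _) (by linarith)
  linarith

/-- the sum of the bounds -/
private theorem tot (s : Fin n → Fin n → ℤ) (v : Fin n) (ρP ρQ : Fin n → ℕ) (κ c : ℝ)
    (hn : 1 ≤ n) (hc : 0 < c) (hκ0 : 0 ≤ κ)
    (h1 : (mis s : ℝ) ≤ κ * (n : ℝ) ^ 2) (h2 : (wv s v : ℝ) ≤ κ * (n : ℝ) ^ 3)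
    (h3 : (bw s (ON s v) ρP : ℝ) ≤ κ * (n : ℝ) ^ 2)
    (h4 : (bw s (IN s v) ρQ : ℝ) ≤ κ * (n : ℝ) ^ 2) :
    ∑ a ∈ ON s v, (2 * Real.sqrt (inv s (IN s v) ρQ a) + 3 * ma s a +
      2 * (ma s a + b1 s (ON s v) ρP a + b2 s (ON s v) ρP a + (κ * n + 2) + 1)) ≤
      (2 * κ / c + c + 11 * κ) * (n : ℝ) ^ 2 + 6 * n := by
  set P := ON s v with hP
  have hn0 : (0 : ℝ) < n := by exact_mod_cast hn
  have hPn : (P.card : ℝ) ≤ n := by
    have : P.card ≤ n := le_trans (card_le_univ _) (by simp)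
    exact_mod_cast this
  have t1 : ∑ a ∈ P, (ma s a : ℝ) ≤ κ * (n : ℝ) ^ 2 := by
    refine le_trans ?_ h1
    rw [← sum_ma s]
    push_cast
    exact sum_le_sum_of_subset_of_nonneg (subset_univ _) fun _ _ _ => Nat.cast_nonneg _
  have t2 : ∑ a ∈ P, (b1 s P ρP a : ℝ) ≤ κ * (n : ℝ) ^ 2 := by
    refine le_trans (le_of_eq ?_) h3
    rw [← sum_b1 s P ρP]; push_cast; rfl
  have t3 : ∑ a ∈ P, (b2 s P ρP a : ℝ) ≤ κ * (n : ℝ) ^ 2 := by
    refine le_trans (le_of_eq ?_) h3
    rw [← sum_b2 s P ρP]; push_cast; rfl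
  have t4 : ∑ a ∈ P, (inv s (IN s v) ρQ a : ℝ) ≤ 2 * κ * (n : ℝ) ^ 3 := by
    calc ∑ a ∈ P, (inv s (IN s v) ρQ a : ℝ)
        ≤ ∑ a ∈ P, ((Wa s v a : ℝ) + bw s (IN s v) ρQ) := sum_le_sum fun a ha => by
          exact_mod_cast inv_le s v a ρQ ha
      _ = ∑ a ∈ P, (Wa s v a : ℝ) + P.card * bw s (IN s v) ρQ := by
          rw [sum_add_distrib, sum_const, nsmul_eq_mul]
      _ ≤ κ * (n : ℝ) ^ 3 + n * (κ * (n : ℝ) ^ 2) := by
          refine add_le_add ?_ (mul_le_mul hPn h4 (Nat.cast_nonneg _) hn0.le)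
          refine le_trans ?_ h2
          rw [← sum_Wa s v]
          push_cast
          exact sum_le_sum_of_subset_of_nonneg (subset_univ _) fun _ _ _ => Nat.cast_nonneg _
      _ = _ := by ring
  have ht : 0 < c * n := by positivity
  have t5 : ∑ a ∈ P, Real.sqrt (inv s (IN s v) ρQ a) ≤ (κ / c + c / 2) * (n : ℝ) ^ 2 := by
    calc ∑ a ∈ P, Real.sqrt (inv s (IN s v) ρQ a)
        ≤ ∑ a ∈ P, ((inv s (IN s v) ρQ a : ℝ) / (2 * (c * n)) + c * n / 2) :=
          sum_le_sum fun a _ => amgm _ _ (Nat.cast_nonneg _) ht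
      _ = (∑ a ∈ P, (inv s (IN s v) ρQ a : ℝ)) / (2 * (c * n)) + P.card * (c * n / 2) := by
          rw [sum_add_distrib, sum_const, nsmul_eq_mul, sum_div]
      _ ≤ (2 * κ * (n : ℝ) ^ 3) / (2 * (c * n)) + n * (c * n / 2) := by
          refine add_le_add (div_le_div_of_nonneg_right t4 (by positivity)) ?_
          exact mul_le_mul_of_nonneg_right hPn (by positivity)
      _ = _ := by field_simp
  have e : ∑ a ∈ P, (2 * Real.sqrt (inv s (IN s v) ρQ a) + 3 * ma s a +
      2 * (ma s a + b1 s P ρP a + b2 s P ρP a + (κ * n + 2) + 1)) =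
      2 * ∑ a ∈ P, Real.sqrt (inv s (IN s v) ρQ a) + 5 * ∑ a ∈ P, (ma s a : ℝ) +
      2 * ∑ a ∈ P, (b1 s P ρP a : ℝ) + 2 * ∑ a ∈ P, (b2 s P ρP a : ℝ) +
      P.card * (2 * κ * n + 6) := by
    rw [← nsmul_eq_mul, ← sum_const, mul_sum, mul_sum, mul_sum, mul_sum, ← sum_add_distrib,
      ← sum_add_distrib, ← sum_add_distrib, ← sum_add_distrib]
    exact sum_congr rfl fun a _ => by ring
  rw [e]
  have t6 : (P.card : ℝ) * (2 * κ * n + 6) ≤ n * (2 * κ * n + 6) :=
    mul_le_mul_of_nonneg_right hPn (by positivity)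
  have e2 : (2 * κ / c + c + 11 * κ) * (n : ℝ) ^ 2 + 6 * n =
      2 * ((κ / c + c / 2) * (n : ℝ) ^ 2) + 5 * (κ * (n : ℝ) ^ 2) + 2 * (κ * (n : ℝ) ^ 2) +
      2 * (κ * (n : ℝ) ^ 2) + n * (2 * κ * n + 6) := by ring
  rw [e2]
  linarith

theorem hHLF : StHLF := by
  intro hI ε hε
  set c : ℝ := min 1 (ε / 28) with hc
  have hc0 : 0 < c := lt_min one_pos (by positivity)
  have hc1 : c ≤ 1 := min_le_left _ _
  have hc2 : c ≤ ε / 28 := min_le_right _ _
  obtain ⟨n0, hn0⟩ := exists_nat_ge (12 / ε)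
  refine ⟨c ^ 2, max 1 n0, by positivity, ?_⟩
  intro n hn s v ρP ρQ hs h1 h2 h3 h4 h5 h6 h7
  have hn1 : 1 ≤ n := le_trans (le_max_left _ _) hn
  have hnR : (12 / ε : ℝ) ≤ n := le_trans hn0 (by exact_mod_cast le_trans (le_max_right _ _) hn)
  have hPQ : Disjoint (ON s v) (IN s v) := by
    rw [disjoint_left]
    intro u hu hu'
    unfold ON at hu
    unfold IN at hu'
    rw [mem_filter] at hu hu'
    have := hs.sk v u
    rw [hu.2, hu'.2] at this
    norm_num at this
  have htot := tot s v ρP ρQ (c ^ 2) c hn1 hc0 (by positivity) h1 h3 h6 h7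
  have hfin : (2 * c ^ 2 / c + c + 11 * c ^ 2) * (n : ℝ) ^ 2 + 6 * n ≤ ε * (n : ℝ) ^ 2 := by
    have e1 : 2 * c ^ 2 / c = 2 * c := by field_simp
    rw [e1]
    have e2 : c ^ 2 ≤ c := by nlinarith
    have e3 : 2 * c + c + 11 * c ^ 2 ≤ ε / 2 := by linarith
    have hn0' : (0 : ℝ) < n := by exact_mod_cast hn1
    have e4 : (2 * c + c + 11 * c ^ 2) * (n : ℝ) ^ 2 ≤ ε / 2 * (n : ℝ) ^ 2 :=
      mul_le_mul_of_nonneg_right e3 (by positivity)
    have e5 : (12 : ℝ) ≤ n * ε := by rwa [div_le_iff₀ hε] at hnR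
    have e6 : 6 * (n : ℝ) ≤ ε / 2 * (n : ℝ) ^ 2 := by nlinarith
    linarith
  have hb := fun a ha T hT => bnd hI s hs (ON s v) (IN s v) hPQ ρP ρQ h4 h5 (c ^ 2) h2 a ha T hT
  constructor
  · refine le_trans ?_ (le_trans htot hfin)
    have e : (((ON s v) ×ˢ (IN s v)).filter fun p => ¬ (s p.1 p.2 = 1 ↔
        2 * ((ON s v).card + rk (IN s v) ρQ p.2) < n + 2 * rk (ON s v) ρP p.1)).card =
        ∑ a ∈ ON s v, ((IN s v).filter fun u => ¬ (s a u = 1 ↔
        2 * ((ON s v).card + rk (IN s v) ρQ u) < n + 2 * rk (ON s v) ρP a)).card := by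
      simp only [card_filter]
      rw [sum_product]
    rw [e]
    push_cast
    refine sum_le_sum fun a ha => hb a ha _ fun u hu => ?_
    rw [mem_filter] at hu
    exact ⟨hu.1, Or.inl hu.2⟩
  · refine le_trans ?_ (le_trans htot hfin)
    have e : (((ON s v) ×ˢ (IN s v)).filter fun p => ¬ (s p.2 p.1 = 1 ↔
        n + 2 * rk (ON s v) ρP p.1 < 2 * ((ON s v).card + rk (IN s v) ρQ p.2))).card =
        ∑ a ∈ ON s v, ((IN s v).filter fun u => ¬ (s u a = 1 ↔
        n + 2 * rk (ON s v) ρP a < 2 * ((ON s v).card + rk (IN s v) ρQ u))).card := by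
      simp only [card_filter]
      rw [sum_product]
    rw [e]
    push_cast
    refine sum_le_sum fun a ha => hb a ha _ fun u hu => ?_
    rw [mem_filter] at hu
    exact ⟨hu.1, Or.inr hu.2⟩

end Pool.Agent.Helper99.SY
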